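import Mathlib
import Pool.Agent.Q233.JFin

/-!
# MP_6fcc74_mp, Q1 (proved)

Classical jellium with a short-range pair potential: the limiting free energy is a continuous,
and in fact locally Lipschitz, function of the density.

The definitions (`phi`, `pairSum`, `energy`, `Z`, `ballOf`, `gBall`, `Admissible`) are in
`Pool/Agent/Q233/JFin.lean`.

Proof. Adding particles: uniformly distributed extra particles and Jensen's inequality. Removing
particles: the functional form of Han's inequality (the Loomis–Whitney inequality) gives
`W_N(a (k-1)/(N-1), γ)^(1/N) ≤ W_k(a, γ)^(1/k)` for the partition functions `W_n(a, γ)` with pair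
coupling `a` and background coupling `γ` in a fixed ball, and thinning by the factor `θ` changes
the jellium energy by the factor `θ ^ 2` up to lower order. Only stability is used for this step.
-/

set_option autoImplicit false

namespace Pool.Agent.Results.MP_6fcc74_mp.LipschitzInDensity

open MeasureTheory Set Filter Topology Pool.Agent.Q233.JFin

/-- For every admissible short-range potential `v` and every `β > 0` the limit `g(β, ρ)` of the
free energies per volume along the balls is a continuous function of the density `ρ > 0`, and it
is Lipschitz continuous on every compact interval of densities. -/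
theorem result (v : EuclideanSpace ℝ (Fin 3) → ℝ) (hv : Admissible v) (β : ℝ) (hβ : 0 < β) :
    (∀ ρ : ℝ, 0 < ρ → ∀ j : ℕ, 1 ≤ j → ρ * (volume (ballOf ρ j)).toReal = j) ∧
    ∃ g : ℝ → ℝ, (∀ ρ, 0 < ρ → Tendsto (gBall v β ρ) atTop (𝓝 (g ρ))) ∧
      ContinuousOn g (Ioi 0) ∧
      ∀ a b, 0 < a → a ≤ b → ∃ C, ∀ ρ ∈ Icc a b, ∀ ρ' ∈ Icc a b,
        |g ρ - g ρ'| ≤ C * |ρ - ρ'| := by
  refine ⟨fun ρ hρ j hj => ?_, main hv hβ⟩
  rw [vol_ballOf hρ hj]
  field_simp

end Pool.Agent.Results.MP_6fcc74_mp.LipschitzInDensity
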